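import Mathlib

set_option autoImplicit false

namespace Pool.Agent.Results.MP_a8e883_al.Classification

open MvPolynomial

/-- The closed neighbourhood `N_G[i]` of a vertex `i` of a finite simple graph `G`. -/
noncomputable def closedNbhd {V : Type*} [Fintype V] (G : SimpleGraph V) (i : V) : Finset V :=
  open Classical in Finset.univ.filter fun j => j = i ∨ G.Adj i j

/-- The closed neighbourhood ideal `NI(G)` of a finite simple graph `G` over a field `K`: the ideal
of `K[x_v : v ∈ V]` generated by the monomials `∏_{j ∈ N_G[i]} x_j`, `i ∈ V`. -/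
noncomputable def nbhdIdeal (K : Type*) [Field K] {V : Type*} [Fintype V] (G : SimpleGraph V) :
    Ideal (MvPolynomial V K) :=
  Ideal.span (Set.range fun i : V => ∏ j ∈ closedNbhd G i, (X j : MvPolynomial V K))

/-- The Kneser graph `K(n,k)`: its vertices are the `k`-element subsets of an `n`-element set, two
distinct vertices being adjacent exactly when the subsets are disjoint. -/
def kneser (n k : ℕ) : SimpleGraph {s : Finset (Fin n) // s.card = k} where
  Adj s t := s ≠ t ∧ Disjoint s.1 t.1
  symm := ⟨fun _ _ h => ⟨h.1.symm, h.2.symm⟩⟩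
  loopless := ⟨fun _ h => h.1 rfl⟩

/-- The exponent vector of the generator attached to the vertex `i`. -/
noncomputable def chi {V : Type*} [Fintype V] (G : SimpleGraph V) (i : V) : V →₀ ℕ :=
  ∑ j ∈ closedNbhd G i, Finsupp.single j 1

lemma mem_closedNbhd {V : Type*} [Fintype V] (G : SimpleGraph V) (i j : V) :
    j ∈ closedNbhd G i ↔ (j = i ∨ G.Adj i j) := by
  simp [closedNbhd]

lemma chi_apply {V : Type*} [Fintype V] (G : SimpleGraph V) (i j : V) :
    chi G i j = (open Classical in if j ∈ closedNbhd G i then 1 else 0) := by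
  classical
  simp only [chi, Finsupp.finsetSum_apply, Finsupp.single_apply]
  rw [Finset.sum_ite_eq' (closedNbhd G i) j (fun _ => 1)]

lemma chi_le_one {V : Type*} [Fintype V] (G : SimpleGraph V) (i j : V) : chi G i j ≤ 1 := by
  rw [chi_apply]; split <;> simp

lemma chi_pos {V : Type*} [Fintype V] (G : SimpleGraph V) (i j : V) :
    chi G i j = 1 ↔ (j = i ∨ G.Adj i j) := by
  rw [chi_apply, ← mem_closedNbhd]; split <;> simp_all

lemma chi_zero {V : Type*} [Fintype V] (G : SimpleGraph V) (i j : V) :
    chi G i j = 0 ↔ ¬ (j = i ∨ G.Adj i j) := by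
  rw [chi_apply, ← mem_closedNbhd]; split <;> simp_all

lemma prod_X_eq (K : Type*) [Field K] {V : Type*} [Fintype V] (G : SimpleGraph V) (i : V) :
    (∏ j ∈ closedNbhd G i, (X j : MvPolynomial V K)) = monomial (chi G i) 1 := by
  classical
  rw [chi, MvPolynomial.monomial_sum_one]
  rfl

lemma nbhdIdeal_sq (K : Type*) [Field K] {V : Type*} [Fintype V] (G : SimpleGraph V) :
    (nbhdIdeal K G) ^ 2 = Ideal.span ((fun s => monomial s (1 : K)) ''
      (Set.range fun p : V × V => chi G p.1 + chi G p.2)) := by
  rw [nbhdIdeal, pow_two, Ideal.span_mul_span']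
  congr 1
  ext f
  simp only [Set.mem_mul, Set.mem_range, exists_exists_eq_and, Set.mem_image, prod_X_eq,
    monomial_mul, one_mul, Prod.exists]
  constructor
  · rintro ⟨i, j, h⟩
    exact ⟨_, ⟨i, j, rfl⟩, h⟩
  · rintro ⟨_, ⟨i, j, rfl⟩, h⟩
    exact ⟨i, j, h⟩

lemma mem_sq_iff (K : Type*) [Field K] {V : Type*} [Fintype V] (G : SimpleGraph V)
    (f : MvPolynomial V K) :
    f ∈ (nbhdIdeal K G) ^ 2 ↔ ∀ a ∈ f.support, ∃ i j, chi G i + chi G j ≤ a := by
  rw [nbhdIdeal_sq, mem_ideal_span_monomial_image]
  simp

/-- `x^a` is a monomial witness for the maximal ideal being associated. -/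
def Witness {V : Type*} [Fintype V] (G : SimpleGraph V) (a : V →₀ ℕ) : Prop :=
  (¬ ∃ i j, chi G i + chi G j ≤ a) ∧ ∀ v, ∃ i j, chi G i + chi G j ≤ a + Finsupp.single v 1

lemma idealOfVars_isMaximal (K : Type*) [Field K] (V : Type*) :
    (idealOfVars V K).IsMaximal := by
  have h : idealOfVars V K = RingHom.ker (constantCoeff : MvPolynomial V K →+* K) := by
    ext f
    rw [RingHom.mem_ker]
    have h1 : idealOfVars V K = Ideal.span (X '' (Set.univ : Set V)) := by
      rw [Set.image_univ]
    rw [h1, mem_ideal_span_X_image]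
    constructor
    · intro h
      by_contra hne
      have h0 : (0 : V →₀ ℕ) ∈ f.support := by
        rw [mem_support_iff]
        exact hne
      obtain ⟨i, -, hi⟩ := h 0 h0
      exact hi rfl
    · intro h m hm
      by_contra hcon
      push Not at hcon
      have : m = 0 := by
        ext i
        exact hcon i (Set.mem_univ i)
      subst this
      exact (mem_support_iff.mp hm) h
  rw [h]
  exact RingHom.ker_isMaximal_of_surjective _ (fun c => ⟨C c, by simp⟩)

lemma assoc_iff (K : Type*) [Field K] {V : Type*} [Fintype V] (G : SimpleGraph V) :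
    IsAssociatedPrime (idealOfVars V K) (MvPolynomial V K ⧸ (nbhdIdeal K G) ^ 2) ↔
      ∃ a, Witness G a := by
  classical
  have hmax := idealOfVars_isMaximal K V
  rw [isAssociatedPrime_iff]
  constructor
  · rintro ⟨-, x, hx⟩
    obtain ⟨f, rfl⟩ := Ideal.Quotient.mk_surjective x
    have key : ∀ g : MvPolynomial V K, g ∈ idealOfVars V K ↔ g * f ∈ (nbhdIdeal K G) ^ 2 := by
      intro g
      rw [hx, Submodule.mem_colon_singleton, Submodule.mem_bot]
      rw [← Ideal.Quotient.eq_zero_iff_mem, map_mul]
      rfl
    have hf : f ∉ (nbhdIdeal K G) ^ 2 := by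
      intro hf
      have : (1 : MvPolynomial V K) ∈ idealOfVars V K := by
        rw [key, one_mul]; exact hf
      exact hmax.ne_top ((Ideal.eq_top_iff_one _).mpr this)
    rw [mem_sq_iff] at hf
    push Not at hf
    obtain ⟨a, ha, hna⟩ := hf
    refine ⟨a, by push Not; exact hna, fun v => ?_⟩
    have hv : (X v : MvPolynomial V K) * f ∈ (nbhdIdeal K G) ^ 2 := by
      rw [← key]
      exact Ideal.subset_span ⟨v, rfl⟩
    rw [mem_sq_iff] at hv
    have := hv (a + Finsupp.single v 1) (by
      rw [mem_support_iff, mul_comm, coeff_mul_X]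
      exact mem_support_iff.mp ha)
    exact this
  · rintro ⟨a, ha1, ha2⟩
    refine ⟨hmax.isPrime, Ideal.Quotient.mk _ (monomial a 1), ?_⟩
    have key : ∀ g : MvPolynomial V K,
        g ∈ (⊥ : Submodule (MvPolynomial V K) (MvPolynomial V K ⧸ (nbhdIdeal K G) ^ 2)).colon
          {Ideal.Quotient.mk _ (monomial a 1)} ↔ g * monomial a 1 ∈ (nbhdIdeal K G) ^ 2 := by
      intro g
      rw [Submodule.mem_colon_singleton, Submodule.mem_bot]
      rw [← Ideal.Quotient.eq_zero_iff_mem, map_mul]
      rfl
    apply hmax.eq_of_le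
    · intro htop
      have h1 : (1 : MvPolynomial V K) ∈
          (⊥ : Submodule (MvPolynomial V K) (MvPolynomial V K ⧸ (nbhdIdeal K G) ^ 2)).colon
          {Ideal.Quotient.mk _ (monomial a 1)} := by
        rw [htop]; trivial
      rw [key, one_mul, mem_sq_iff] at h1
      exact ha1 (h1 a (by simp [mem_support_iff]))
    · rw [idealOfVars, Ideal.span_le]
      rintro _ ⟨v, rfl⟩
      rw [SetLike.mem_coe, key, mem_sq_iff]
      intro b hb
      have hXa : (X v : MvPolynomial V K) * monomial a 1 = monomial (a + Finsupp.single v 1) 1 := by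
        rw [mul_comm, X, monomial_mul, one_mul]
      rw [hXa] at hb
      have hb' : b = a + Finsupp.single v 1 := by
        have := support_monomial_subset hb
        simpa using this
      rw [hb']
      exact ha2 v

/-! ### Combinatorics of witnesses -/

section general

variable {V : Type*} [Fintype V] {G : SimpleGraph V} {a : V →₀ ℕ}

lemma Witness.le_one (h : Witness G a) (v : V) : a v ≤ 1 := by
  classical
  by_contra hv
  push Not at hv
  obtain ⟨i, j, hij⟩ := h.2 v
  apply h.1
  refine ⟨i, j, fun u => ?_⟩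
  by_cases huv : u = v
  · subst huv
    have h1 := chi_le_one G i u
    have h2 := chi_le_one G j u
    rw [Finsupp.add_apply]
    omega
  · have := hij u
    rw [Finsupp.add_apply, Finsupp.add_apply, Finsupp.single_eq_of_ne huv] at this
    rw [Finsupp.add_apply]
    omega

/-- interior vertices -/
def Int (G : SimpleGraph V) (a : V →₀ ℕ) (i : V) : Prop :=
  ∀ u, (u = i ∨ G.Adj i u) → a u = 1

/-- (a) two interior vertices have intersecting closed neighbourhoods -/
lemma Witness.common (h : Witness G a) {i j : V} (hi : Int G a i) (hj : Int G a j) :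
    ∃ u, (u = i ∨ G.Adj i u) ∧ (u = j ∨ G.Adj j u) := by
  by_contra hcon
  push Not at hcon
  apply h.1
  refine ⟨i, j, fun u => ?_⟩
  rw [Finsupp.add_apply]
  have h1 := chi_le_one G i u
  have h2 := chi_le_one G j u
  by_cases hiu : (u = i ∨ G.Adj i u)
  · have h3 := hi u hiu
    have h4 : chi G j u = 0 := by
      rw [chi_zero]
      intro h5
      have := hcon u hiu
      tauto
    omega
  · have h4 : chi G i u = 0 := by
      rw [chi_zero]; exact hiu
    by_cases hju : (u = j ∨ G.Adj j u)
    · have h3 := hj u hju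
      omega
    · have h5 : chi G j u = 0 := by
        rw [chi_zero]; exact hju
      omega

/-- (b) each `v` in the support is the unique common closed neighbour of two interior vertices -/
lemma Witness.pair (h : Witness G a) {v : V} (hv : a v = 1) :
    ∃ i j, Int G a i ∧ Int G a j ∧ (v = i ∨ G.Adj i v) ∧ (v = j ∨ G.Adj j v) ∧
      ∀ u, (u = i ∨ G.Adj i u) → (u = j ∨ G.Adj j u) → u = v := by
  classical
  obtain ⟨i, j, hij⟩ := h.2 v
  have hoff : ∀ u, u ≠ v → chi G i u + chi G j u ≤ a u := by
    intro u huv
    have := hij u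
    rw [Finsupp.add_apply, Finsupp.add_apply, Finsupp.single_eq_of_ne huv] at this
    simpa using this
  have hat : chi G i v + chi G j v ≤ 2 := by
    have h1 := chi_le_one G i v
    have h2 := chi_le_one G j v
    omega
  have hboth : chi G i v + chi G j v = 2 := by
    by_contra hne
    apply h.1
    refine ⟨i, j, fun u => ?_⟩
    by_cases huv : u = v
    · subst huv
      rw [Finsupp.add_apply]
      omega
    · rw [Finsupp.add_apply]
      exact hoff u huv
  have h1 := chi_le_one G i v
  have h2 := chi_le_one G j v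
  refine ⟨i, j, ?_, ?_, (chi_pos G i v).mp (by omega), (chi_pos G j v).mp (by omega), ?_⟩
  · intro u hu
    by_cases huv : u = v
    · subst huv; exact hv
    · have h3 := hoff u huv
      have h4 := (chi_pos G i u).mpr hu
      have h5 := h.le_one u
      omega
  · intro u hu
    by_cases huv : u = v
    · subst huv; exact hv
    · have h3 := hoff u huv
      have h4 := (chi_pos G j u).mpr hu
      have h5 := h.le_one u
      omega
  · intro u hu1 hu2
    by_contra huv
    have h3 := hoff u huv
    have h4 := (chi_pos G i u).mpr hu1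
    have h4' := (chi_pos G j u).mpr hu2
    have h5 := h.le_one u
    omega

/-- (c) there is an interior vertex -/
lemma Witness.exists_int [Nonempty V] (h : Witness G a) : ∃ i, Int G a i := by
  classical
  obtain ⟨v⟩ := ‹Nonempty V›
  by_cases hv : a v = 1
  · obtain ⟨i, -, hi, -⟩ := h.pair hv
    exact ⟨i, hi⟩
  · have hv0 : a v = 0 := by
      have := h.le_one v
      omega
    obtain ⟨i, j, hij⟩ := h.2 v
    have hoff : ∀ u, u ≠ v → chi G i u + chi G j u ≤ a u := by
      intro u huv
      have := hij u
      rw [Finsupp.add_apply, Finsupp.add_apply, Finsupp.single_eq_of_ne huv] at this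
      simpa using this
    have hat : chi G i v + chi G j v ≤ 1 := by
      have := hij v
      rw [Finsupp.add_apply, Finsupp.add_apply, Finsupp.single_eq_same] at this
      omega
    rcases Nat.eq_zero_or_pos (chi G i v) with h0 | h0
    · refine ⟨i, fun u hu => ?_⟩
      by_cases huv : u = v
      · subst huv
        exact absurd hu ((chi_zero G i u).mp h0)
      · have h3 := hoff u huv
        have h4 := (chi_pos G i u).mpr hu
        have h5 := h.le_one u
        omega
    · have h0' : chi G j v = 0 := by omega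
      refine ⟨j, fun u hu => ?_⟩
      by_cases huv : u = v
      · subst huv
        exact absurd hu ((chi_zero G j u).mp h0')
      · have h3 := hoff u huv
        have h4 := (chi_pos G j u).mpr hu
        have h5 := h.le_one u
        omega

omit [Fintype V] in
/-- If `v` is not isolated and is the unique common closed neighbour of `i` and `j`, then both are
(proper) neighbours of `v`. -/
lemma adj_of_unique {i j v w : V} (hw : G.Adj v w) (hi : v = i ∨ G.Adj i v)
    (hj : v = j ∨ G.Adj j v) (hu : ∀ u, (u = i ∨ G.Adj i u) → (u = j ∨ G.Adj j u) → u = v) :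
    G.Adj v i ∧ G.Adj v j := by
  have key : ∀ {i j : V}, (v = j ∨ G.Adj j v) →
      (∀ u, (u = i ∨ G.Adj i u) → (u = j ∨ G.Adj j u) → u = v) → v ≠ i := by
    intro i j hj hu hvi
    subst hvi
    rcases hj with hj | hj
    · subst hj
      have := hu w (Or.inr hw) (Or.inr hw)
      exact hw.ne this.symm
    · have := hu j (Or.inr hj.symm) (Or.inl rfl)
      exact hj.ne this
  have h1 : v ≠ i := key hj hu
  have h2 : v ≠ j := key hi (fun u h1 h2 => hu u h2 h1)
  exact ⟨(hi.resolve_left h1).symm, (hj.resolve_left h2).symm⟩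

end general

section kneser

variable {n k : ℕ}

lemma kneser_adj_of_disjoint (hk : 0 < k) (s t : {s : Finset (Fin n) // s.card = k})
    (h : Disjoint s.1 t.1) : (kneser n k).Adj s t := by
  refine ⟨?_, h⟩
  rintro rfl
  have h2 := s.2
  rw [disjoint_self] at h
  rw [h] at h2
  simp at h2
  omega

/-- If `v` is the unique common neighbour of `s` and `t` then `s ∪ t` is the complement of `v`. -/
lemma mem_union_of_unique (hk : 0 < k) {s t v : {s : Finset (Fin n) // s.card = k}}
    (hs : (kneser n k).Adj v s) (ht : (kneser n k).Adj v t)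
    (hu : ∀ u, (u = s ∨ (kneser n k).Adj s u) → (u = t ∨ (kneser n k).Adj t u) → u = v)
    {x : Fin n} (hx : x ∉ v.1) : x ∈ s.1 ∪ t.1 := by
  classical
  by_contra hxst
  rw [Finset.mem_union, not_or] at hxst
  have hne : v.1.Nonempty := by
    rw [← Finset.card_pos, v.2]; exact hk
  obtain ⟨y, hy⟩ := hne
  have hcard : (insert x (v.1.erase y)).card = k := by
    rw [Finset.card_insert_of_notMem, Finset.card_erase_of_mem hy, v.2]
    · omega
    · intro h
      exact hx (Finset.mem_of_mem_erase h)
  have hd : ∀ r : {s : Finset (Fin n) // s.card = k}, (kneser n k).Adj v r → x ∉ r.1 →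
      Disjoint r.1 (insert x (v.1.erase y)) := by
    intro r hr hxr
    rw [Finset.disjoint_insert_right]
    exact ⟨hxr, Finset.disjoint_of_subset_right (Finset.erase_subset _ _) hr.2.symm⟩
  have := hu ⟨_, hcard⟩ (Or.inr (kneser_adj_of_disjoint hk _ _ (hd s hs hxst.1)))
    (Or.inr (kneser_adj_of_disjoint hk _ _ (hd t ht hxst.2)))
  apply hx
  rw [← this]
  exact Finset.mem_insert_self _ _

lemma final_contra {b : Fin n} (hk : 2 ≤ k) (hn : n + 2 ≤ 3 * k)
    {T B u : {s : Finset (Fin n) // s.card = k}} (hT : b ∈ T.1) (hB : b ∈ B.1)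
    (hd : Disjoint T.1 (B.1.erase b)) (h1 : u = T ∨ (kneser n k).Adj T u)
    (h2 : u = B ∨ (kneser n k).Adj B u) : False := by
  classical
  have hTB : T.1 ∩ B.1 = {b} := by
    ext x
    rw [Finset.mem_inter, Finset.mem_singleton]
    constructor
    · rintro ⟨hx1, hx2⟩
      by_contra hxb
      exact Finset.disjoint_left.mp hd hx1 (Finset.mem_erase.mpr ⟨hxb, hx2⟩)
    · rintro rfl
      exact ⟨hT, hB⟩
  have hcard : (T.1 ∪ B.1).card + 1 = 2 * k := by
    have := Finset.card_union_add_card_inter T.1 B.1
    rw [hTB, T.2, B.2, Finset.card_singleton] at this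
    omega
  rcases h1 with rfl | h1
  · rcases h2 with rfl | h2
    · rw [Finset.inter_self] at hTB
      have := u.2
      rw [hTB, Finset.card_singleton] at this
      omega
    · exact Finset.disjoint_left.mp h2.2 hB hT
  · rcases h2 with rfl | h2
    · exact Finset.disjoint_left.mp h1.2 hT hB
    · have hdis : Disjoint (T.1 ∪ B.1) u.1 := by
        rw [Finset.disjoint_union_left]
        exact ⟨h1.2, h2.2⟩
      have h3 := Finset.card_union_of_disjoint hdis
      have h4 := Finset.card_le_univ (T.1 ∪ B.1 ∪ u.1)
      rw [h3, u.2, Fintype.card_fin] at h4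
      omega

lemma main_neg {a : {s : Finset (Fin n) // s.card = k} →₀ ℕ} (hk : 0 < k) (hn : 2 * k ≤ n)
    (h : Witness (kneser n k) a) : 2 ≤ k ∧ n + 1 = 3 * k := by
  classical
  have hne : Nonempty {s : Finset (Fin n) // s.card = k} := by
    obtain ⟨t, -, ht⟩ := Finset.exists_subset_card_eq (s := (Finset.univ : Finset (Fin n)))
      (n := k) (by rw [Finset.card_univ, Fintype.card_fin]; omega)
    exact ⟨⟨t, ht⟩⟩
  obtain ⟨A, hA⟩ := h.exists_int
  have hA1 : a A = 1 := hA A (Or.inl rfl)
  -- every vertex has a neighbour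
  have hnb : ∀ A : {s : Finset (Fin n) // s.card = k}, ∃ w, (kneser n k).Adj A w := by
    intro A
    obtain ⟨t, ht1, ht⟩ := Finset.exists_subset_card_eq (s := A.1ᶜ) (n := k) (by
      rw [Finset.card_compl, Fintype.card_fin, A.2]; omega)
    refine ⟨⟨t, ht⟩, kneser_adj_of_disjoint hk _ _ ?_⟩
    exact Finset.disjoint_of_subset_right ht1 disjoint_compl_right
  obtain ⟨w, hw⟩ := hnb A
  obtain ⟨B, C, hB, hC, hAB, hAC, huniq⟩ := h.pair hA1
  obtain ⟨hAB', hAC'⟩ := adj_of_unique hw hAB hAC huniq
  have hBC : B ≠ C := by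
    rintro rfl
    have := huniq B (Or.inl rfl) (Or.inl rfl)
    exact hAB'.ne this.symm
  have hunion : A.1ᶜ ⊆ B.1 ∪ C.1 := by
    intro x hx
    exact mem_union_of_unique hk hAB' hAC' huniq (Finset.mem_compl.mp hx)
  have hcompl : (A.1ᶜ).card = n - k := by
    rw [Finset.card_compl, Fintype.card_fin, A.2]
  have hle := Finset.card_le_card hunion
  rw [hcompl] at hle
  have hui := Finset.card_union_add_card_inter B.1 C.1
  rw [B.2, C.2] at hui
  have hinter : 0 < (B.1 ∩ C.1).card := by
    by_contra h0
    have h0' : B.1 ∩ C.1 = ∅ := by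
      rw [← Finset.card_eq_zero]; omega
    have hdisj : Disjoint B.1 C.1 := Finset.disjoint_iff_inter_eq_empty.mpr h0'
    have hadj := kneser_adj_of_disjoint hk _ _ hdisj
    have := huniq B (Or.inl rfl) (Or.inr hadj.symm)
    exact hAB'.ne this.symm
  have hinter2 : (B.1 ∩ C.1).card < k := by
    by_contra h0
    have h1 : B.1 ∩ C.1 = B.1 :=
      Finset.eq_of_subset_of_card_le Finset.inter_subset_left (by rw [B.2]; omega)
    have h2 : B.1 ∩ C.1 = C.1 :=
      Finset.eq_of_subset_of_card_le Finset.inter_subset_right (by rw [C.2]; omega)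
    exact hBC (Subtype.ext (h1.symm.trans h2))
  have hk2 : 2 ≤ k := by omega
  refine ⟨hk2, ?_⟩
  by_contra hne3
  have hn3 : n + 2 ≤ 3 * k := by omega
  -- `n ≠ 2k`
  have hn2k : 2 * k < n := by
    by_contra hcon
    have hB' : B.1 = A.1ᶜ := by
      apply Finset.eq_of_subset_of_card_le
      · intro x hx
        rw [Finset.mem_compl]
        exact fun hxA => Finset.disjoint_left.mp hAB'.2 hxA hx
      · rw [hcompl, B.2]; omega
    have hC' : C.1 = A.1ᶜ := by
      apply Finset.eq_of_subset_of_card_le
      · intro x hx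
        rw [Finset.mem_compl]
        exact fun hxA => Finset.disjoint_left.mp hAC'.2 hxA hx
      · rw [hcompl, C.2]; omega
    exact hBC (Subtype.ext (hB'.trans hC'.symm))
  obtain ⟨b, hb⟩ : B.1.Nonempty := by
    rw [← Finset.card_pos, B.2]; exact hk
  obtain ⟨r, hr⟩ : ((A.1 ∪ B.1)ᶜ).Nonempty := by
    rw [← Finset.card_pos, Finset.card_compl, Fintype.card_fin]
    have := Finset.card_union_le A.1 B.1
    rw [A.2, B.2] at this
    omega
  rw [Finset.mem_compl, Finset.mem_union, not_or] at hr
  have hvcard : (insert r (B.1.erase b)).card = k := by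
    rw [Finset.card_insert_of_notMem, Finset.card_erase_of_mem hb, B.2]
    · omega
    · intro h
      exact hr.2 (Finset.mem_of_mem_erase h)
  have hbr : b ≠ r := by
    rintro rfl
    exact hr.2 hb
  obtain ⟨v, hv⟩ : ∃ v : {s : Finset (Fin n) // s.card = k}, v.1 = insert r (B.1.erase b) :=
    ⟨⟨_, hvcard⟩, rfl⟩
  have hAv : (kneser n k).Adj A v := by
    apply kneser_adj_of_disjoint hk
    rw [hv, Finset.disjoint_insert_right]
    exact ⟨hr.1, Finset.disjoint_of_subset_right (Finset.erase_subset _ _) hAB'.2⟩
  have hv1 : a v = 1 := hA v (Or.inr hAv)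
  obtain ⟨P, Q, hP, hQ, hvP, hvQ, hvu⟩ := h.pair hv1
  obtain ⟨hvP', hvQ'⟩ := adj_of_unique hAv.symm hvP hvQ hvu
  have hbv : b ∉ v.1 := by
    rw [hv, Finset.mem_insert, not_or]
    exact ⟨hbr, Finset.notMem_erase b B.1⟩
  have hbPQ := mem_union_of_unique hk hvP' hvQ' hvu hbv
  have hsub : B.1.erase b ⊆ v.1 := by
    rw [hv]; exact Finset.subset_insert _ _
  rcases Finset.mem_union.mp hbPQ with hbP | hbQ
  · obtain ⟨u, hu1, hu2⟩ := h.common hP hB
    exact final_contra hk2 hn3 hbP hb
      (Finset.disjoint_of_subset_right hsub hvP'.2.symm) hu1 hu2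
  · obtain ⟨u, hu1, hu2⟩ := h.common hQ hB
    exact final_contra hk2 hn3 hbQ hb
      (Finset.disjoint_of_subset_right hsub hvQ'.2.symm) hu1 hu2

lemma main_pos (hk : 2 ≤ k) (hn : n + 1 = 3 * k) : ∃ a, Witness (kneser n k) a := by
  classical
  refine ⟨Finsupp.equivFunOnFinite.symm (fun _ => 1), ?_, ?_⟩
  · rintro ⟨s, t, hst⟩
    have hcommon : ∃ u, (u = s ∨ (kneser n k).Adj s u) ∧ (u = t ∨ (kneser n k).Adj t u) := by
      by_cases hd : Disjoint s.1 t.1
      · exact ⟨s, Or.inl rfl, Or.inr (kneser_adj_of_disjoint (by omega) _ _ hd.symm)⟩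
      · have hint : 0 < (s.1 ∩ t.1).card := by
          rw [Finset.card_pos, ← Finset.not_disjoint_iff_nonempty_inter]
          exact hd
        have hui := Finset.card_union_add_card_inter s.1 t.1
        rw [s.2, t.2] at hui
        obtain ⟨u, hu1, hu⟩ := Finset.exists_subset_card_eq (s := (s.1 ∪ t.1)ᶜ) (n := k) (by
          rw [Finset.card_compl, Fintype.card_fin]; omega)
        have hdu : Disjoint (s.1 ∪ t.1) u :=
          Finset.disjoint_of_subset_right hu1 disjoint_compl_right
        rw [Finset.disjoint_union_left] at hdu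
        exact ⟨⟨u, hu⟩, Or.inr (kneser_adj_of_disjoint (by omega) _ _ hdu.1),
          Or.inr (kneser_adj_of_disjoint (by omega) _ _ hdu.2)⟩
    obtain ⟨u, hu1, hu2⟩ := hcommon
    have h1 := (chi_pos _ _ _).mpr hu1
    have h2 := (chi_pos _ _ _).mpr hu2
    have h3 := hst u
    rw [Finsupp.add_apply, h1, h2] at h3
    simp at h3
  · intro v
    -- split the complement of `v`
    have hc : (v.1ᶜ).card = 2 * k - 1 := by
      rw [Finset.card_compl, Fintype.card_fin, v.2]; omega
    obtain ⟨x, hx⟩ : (v.1ᶜ).Nonempty := by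
      rw [← Finset.card_pos, hc]; omega
    have hc2 : ((v.1ᶜ).erase x).card = 2 * (k - 1) := by
      rw [Finset.card_erase_of_mem hx, hc]; omega
    obtain ⟨P, hP1, hP⟩ := Finset.exists_subset_card_eq (s := (v.1ᶜ).erase x) (n := k - 1) (by
      rw [hc2]; omega)
    obtain ⟨Q, hQdef⟩ : ∃ Q, Q = ((v.1ᶜ).erase x) \ P := ⟨_, rfl⟩
    have hQ : Q.card = k - 1 := by
      rw [hQdef, Finset.card_sdiff_of_subset hP1, hc2, hP]; omega
    have hxP : x ∉ P := fun h => Finset.notMem_erase x _ (hP1 h)
    have hxQ : x ∉ Q := fun h => by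
      rw [hQdef] at h
      exact Finset.notMem_erase x _ (Finset.sdiff_subset h)
    have hs : (insert x P).card = k := by
      rw [Finset.card_insert_of_notMem hxP, hP]; omega
    have ht : (insert x Q).card = k := by
      rw [Finset.card_insert_of_notMem hxQ, hQ]; omega
    refine ⟨⟨_, hs⟩, ⟨_, ht⟩, fun u => ?_⟩
    rw [Finsupp.add_apply, Finsupp.add_apply]
    simp only [Finsupp.equivFunOnFinite_symm_apply_apply]
    by_cases huv : u = v
    · subst huv
      rw [Finsupp.single_eq_same]
      have h1 := chi_le_one (kneser n k) ⟨_, hs⟩ u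
      have h2 := chi_le_one (kneser n k) ⟨_, ht⟩ u
      omega
    · rw [Finsupp.single_eq_of_ne huv]
      by_contra hcon
      have h1 := chi_le_one (kneser n k) ⟨_, hs⟩ u
      have h2 := chi_le_one (kneser n k) ⟨_, ht⟩ u
      have h3 := (chi_pos (kneser n k) ⟨_, hs⟩ u).mp (by omega)
      have h4 := (chi_pos (kneser n k) ⟨_, ht⟩ u).mp (by omega)
      apply huv
      rcases h3 with h3 | h3
      · rcases h4 with h4 | h4
        · -- `insert x P = insert x Q`
          exfalso
          have hPQ : insert x P = insert x Q := by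
            have := h3.symm.trans h4
            exact congrArg Subtype.val this
          obtain ⟨y, hy⟩ : P.Nonempty := by
            rw [← Finset.card_pos, hP]; omega
          have hy2 : y ∈ insert x Q := by
            rw [← hPQ]; exact Finset.mem_insert_of_mem hy
          rcases Finset.mem_insert.mp hy2 with h5 | h5
          · subst h5; exact hxP hy
          · rw [hQdef] at h5
            exact (Finset.mem_sdiff.mp h5).2 hy
        · exfalso
          have h5 := h4.2
          rw [h3] at h5
          exact Finset.disjoint_left.mp h5 (Finset.mem_insert_self _ _)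
            (Finset.mem_insert_self _ _)
      · rcases h4 with h4 | h4
        · exfalso
          have h5 := h3.2
          rw [h4] at h5
          exact Finset.disjoint_left.mp h5 (Finset.mem_insert_self _ _)
            (Finset.mem_insert_self _ _)
        · have h5 : u.1 ⊆ v.1 := by
            intro y hy
            by_contra hyv
            have hyc : y ∈ v.1ᶜ := Finset.mem_compl.mpr hyv
            by_cases hyx : y = x
            · subst hyx
              exact Finset.disjoint_left.mp h3.2 (Finset.mem_insert_self _ _) hy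
            · by_cases hyP : y ∈ P
              · exact Finset.disjoint_left.mp h3.2 (Finset.mem_insert_of_mem hyP) hy
              · refine Finset.disjoint_left.mp h4.2 (Finset.mem_insert_of_mem ?_) hy
                rw [hQdef]
                exact Finset.mem_sdiff.mpr ⟨Finset.mem_erase.mpr ⟨hyx, hyc⟩, hyP⟩
          exact Subtype.ext (Finset.eq_of_subset_of_card_le h5 (by rw [u.2, v.2]))

lemma main_degenerate (hkn : k < n) (hn : n < 2 * k) : ∃ a, Witness (kneser n k) a := by
  classical
  obtain ⟨t, -, ht⟩ := Finset.exists_subset_card_eq (s := (Finset.univ : Finset (Fin n)))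
    (n := k) (by rw [Finset.card_univ, Fintype.card_fin]; omega)
  have hno : ∀ s t, ¬ (kneser n k).Adj s t := by
    intro s t hst
    have h3 := Finset.card_union_of_disjoint hst.2
    have h4 := Finset.card_le_univ (s.1 ∪ t.1)
    rw [h3, s.2, t.2, Fintype.card_fin] at h4
    omega
  have hchi : ∀ s, chi (kneser n k) s = Finsupp.single s 1 := by
    intro s
    ext u
    by_cases hus : u = s
    · subst hus
      rw [Finsupp.single_eq_same, chi_pos]
      exact Or.inl rfl
    · rw [Finsupp.single_eq_of_ne hus, chi_zero]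
      rintro (h | h)
      · exact hus h
      · exact hno _ _ h
  refine ⟨Finsupp.single ⟨t, ht⟩ 1, ?_, ?_⟩
  · rintro ⟨i, j, hij⟩
    rw [hchi, hchi] at hij
    have h1 := hij i
    have h2 := hij j
    simp only [Finsupp.add_apply, Finsupp.single_apply] at h1 h2
    by_cases h : i = j
    · subst h
      split_ifs at h1 <;> simp_all
    · by_cases hi : (⟨t, ht⟩ : {s : Finset (Fin n) // s.card = k}) = i
      · by_cases hj : (⟨t, ht⟩ : {s : Finset (Fin n) // s.card = k}) = j
        · exact h (hi.symm.trans hj)
        · simp [hj, h] at h2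
      · simp [hi] at h1
  · intro v
    refine ⟨⟨t, ht⟩, v, ?_⟩
    rw [hchi, hchi]

end kneser

/-- For every field `K` and all positive integers `k < n`, the maximal homogeneous ideal of
`S = K[x_v : v a k-subset of an n-set]` is an associated prime of `S / NI(K(n,k))^2` if and only if
either `K(n,k)` is edgeless (`n < 2k`, a degenerate case in which `NI(K(n,k))` is the maximal ideal)
or `k ≥ 2` and `n = 3k - 1`. -/
theorem result (K : Type*) [Field K] (n k : ℕ) (hk : 0 < k) (hkn : k < n) :
    IsAssociatedPrime (idealOfVars {s : Finset (Fin n) // s.card = k} K)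
      (MvPolynomial {s : Finset (Fin n) // s.card = k} K ⧸ (nbhdIdeal K (kneser n k)) ^ 2) ↔
      (n < 2 * k ∨ (2 ≤ k ∧ n = 3 * k - 1)) := by
  rw [assoc_iff]
  constructor
  · rintro ⟨a, ha⟩
    by_cases h : n < 2 * k
    · exact Or.inl h
    · obtain ⟨h1, h2⟩ := main_neg hk (by omega) ha
      exact Or.inr ⟨h1, by omega⟩
  · rintro (h | ⟨h1, h2⟩)
    · exact main_degenerate hkn h
    · exact main_pos h1 (by omega)

end Pool.Agent.Results.MP_a8e883_al.Classification
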